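import Pool.Agent.Lib.MP_a247fa_nt.Ver.Check

/-! V5. Kernel computation for some residue classes mod `256`, up to `2 * 10^7`. -/

set_option autoImplicit false

namespace Pool.Agent.Lib.MP_a247fa_nt.Ver

theorem ver_159 : chkR 20000000 8 256 159 2187 1367 = true := by decide +kernel

theorem ver_223 : chkR 20000000 8 256 223 729 638 = true := by decide +kernel

end Pool.Agent.Lib.MP_a247fa_nt.Ver
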