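import Pool.Agent.Lib.MP_a247fa_nt.Ver.Check

/-! V8. Kernel computation for some residue classes mod `256`, up to `2 * 10^7`. -/

set_option autoImplicit false

namespace Pool.Agent.Lib.MP_a247fa_nt.Ver

theorem ver_251 : chkR 20000000 8 256 251 729 719 = true := by decide +kernel

theorem ver_71 : chkR 20000000 8 256 71 729 206 = true := by decide +kernel

theorem ver_167 : chkR 20000000 8 256 167 729 479 = true := by decide +kernel

end Pool.Agent.Lib.MP_a247fa_nt.Ver
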