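import Pool.Agent.Lib.MP_a247fa_nt.Ver.V1
import Pool.Agent.Lib.MP_a247fa_nt.Ver.V2
import Pool.Agent.Lib.MP_a247fa_nt.Ver.V3
import Pool.Agent.Lib.MP_a247fa_nt.Ver.V4
import Pool.Agent.Lib.MP_a247fa_nt.Ver.V5
import Pool.Agent.Lib.MP_a247fa_nt.Ver.V6
import Pool.Agent.Lib.MP_a247fa_nt.Ver.V7
import Pool.Agent.Lib.MP_a247fa_nt.Ver.V8
import Pool.Agent.Lib.MP_a247fa_nt.Ver.V9

/-! UPTO. Every `n ≤ 2 * 10^7` reaches `1` under the Collatz map (kernel computation). -/

set_option autoImplicit false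

namespace Pool.Agent.Lib.MP_a247fa_nt.Ver

private theorem upto_leaves : leaves 8 1 0 1 0 =
    [(256, 27, 2187, 242), (256, 155, 729, 445), (256, 91, 729, 263), (256, 219, 243, 209),
      (256, 123, 243, 118), (256, 251, 729, 719), (256, 71, 729, 206), (256, 199, 243, 190),
      (256, 39, 243, 38), (256, 167, 729, 479), (256, 103, 2187, 890), (256, 231, 729, 661),
      (256, 79, 243, 76), (256, 207, 729, 593), (256, 47, 729, 137), (256, 175, 243, 167),
      (256, 111, 729, 319), (256, 239, 2187, 2051), (256, 31, 729, 91), (256, 159, 2187, 1367),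
      (256, 95, 243, 91), (256, 223, 729, 638), (256, 63, 729, 182), (256, 191, 2187, 1640),
      (256, 127, 2187, 1093), (256, 255, 6561, 6560)] := by
  decide +kernel

/-- every `n ≤ 2 * 10^7` reaches `1` -/
theorem reach_upto : ∀ n, 1 ≤ n → n ≤ 20000000 → ∃ j : ℕ, T^[j] n = 1 := by
  refine reach_of_chk (f := 8 + 8) (leaves_sound 20000000 8 8 1 0 1 0 ?_)
  rw [upto_leaves]
  simp only [List.forall_mem_cons, List.not_mem_nil, false_implies, implies_true, and_true]
  exact ⟨ver_27, ver_155, ver_91, rfl, rfl, ver_251,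
    ver_71, rfl, rfl, ver_167, ver_103, ver_231,
    rfl, ver_207, ver_47, rfl, ver_111, ver_239,
    ver_31, ver_159, rfl, ver_223, ver_63, ver_191,
    ver_127, ver_255⟩

end Pool.Agent.Lib.MP_a247fa_nt.Ver
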