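import Pool.Agent.Lib.MP_a247fa_nt.Ver.ConvOne

/-! EXCCOUNT. The exceptional set `Exc` is countable. -/

set_option autoImplicit false

namespace Pool.Agent.Lib.MP_a247fa_nt.Ver

open Set MeasureTheory Filter Topology

private theorem exc_analytic (y : ℝ) : AnalyticOnNhd ℝ (fun x => cf x - y) univ := by
  intro x _
  have h1 : AnalyticAt ℝ (fun x : ℝ => Real.cos (Real.pi * x)) x := by
    have h2 : AnalyticAt ℝ (fun x : ℝ => Real.pi * x) x := analyticAt_const.mul analyticAt_id
    exact Real.analyticAt_cos.comp h2
  have h3 : AnalyticAt ℝ (fun x : ℝ => (2 * x + 1) / 4) x := by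
    have : AnalyticAt ℝ (fun x : ℝ => (2 * x + 1) * (1 / 4)) x :=
      ((analyticAt_const.mul analyticAt_id).add analyticAt_const).mul analyticAt_const
    refine this.congr (Eventually.of_forall fun z => ?_)
    ring
  have h4 : AnalyticAt ℝ (fun x : ℝ => x + 1 / 4 - (2 * x + 1) / 4 * Real.cos (Real.pi * x) - y) x :=
    ((analyticAt_id.add analyticAt_const).sub (h3.mul h1)).sub analyticAt_const
  exact h4

private theorem exc_fibre (y : ℝ) : {x : ℝ | cf x = y}.Countable := by
  have h1 := exc_analytic y
  -- a point where the function does not vanish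
  obtain ⟨n, hn⟩ : ∃ n : ℝ, cf n - y ≠ 0 := by
    by_contra hcon
    push Not at hcon
    have h2 := hcon 1
    have h3 := hcon 2
    rw [cf_one] at h2
    rw [cf_two] at h3
    linarith
  have h5 := h1.preimage_zero_mem_codiscreteWithin (x := n) hn (by simp) isConnected_univ
  have h6 : IsDiscrete {x : ℝ | cf x = y} := by
    have h7 := isDiscrete_of_codiscreteWithin (U := univ) (s := {x : ℝ | cf x = y}) (by
      refine mem_of_superset h5 ?_
      intro x hx
      simp only [mem_preimage, mem_compl_iff, mem_singleton_iff, mem_ofPred_eq] at hx ⊢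
      intro h
      exact hx (by rw [h]; ring))
    rwa [inter_univ] at h7
  exact (HereditarilyLindelofSpace.isLindelof _).countable_of_isDiscrete h6

theorem cf_preimage_countable {S : Set ℝ} (hS : S.Countable) : (cf ⁻¹' S).Countable := by
  have h1 : cf ⁻¹' S = ⋃ y ∈ S, {x : ℝ | cf x = y} := by
    ext x
    simp
  rw [h1]
  exact hS.biUnion fun y _ => exc_fibre y

theorem iter_preimage_countable {S : Set ℝ} (hS : S.Countable) (k : ℕ) : (cf^[k] ⁻¹' S).Countable := by
  induction k with
  | zero => simpa using hS
  | succ k ih =>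
    rw [Function.iterate_succ, preimage_comp]
    exact cf_preimage_countable ih

theorem exc_countable : Exc.Countable := by
  have h1 : Exc = ⋃ k : ℕ, cf^[k] ⁻¹' Rep := by
    ext x
    simp [Exc]
  rw [h1]
  exact countable_iUnion fun k => iter_preimage_countable rep_subsingleton.countable k

theorem exc_null : volume Exc = 0 := exc_countable.measure_zero _

end Pool.Agent.Lib.MP_a247fa_nt.Ver
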