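import Pool.Agent.Lib.MP_a247fa_nt.IntSmall

/-! CHECK. A checker (for the kernel) of the statement that the `n ≤ N` reach `1` under the Collatz map `T`. Numbers in
the residue classes `2, 4, 5, 8 mod 9` are images of smaller numbers, all other numbers get an iterate below themselves:
first by residue classes mod `2^D` (`chkR`), then one by one (`chkL`, `chkT`), eight steps at once with a table (`jmp`). -/

set_option autoImplicit false

namespace Pool.Agent.Lib.MP_a247fa_nt.Ver

/-- some iterate of `n` is smaller than `n` -/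
def Desc (n : ℕ) : Prop := ∃ k : ℕ, T^[k] n < n

/-- `n` is handled by the checker -/
def Good (n : ℕ) : Prop := (n % 9 = 2 ∨ n % 9 = 4 ∨ n % 9 = 5 ∨ n % 9 = 8) ∨ Desc n

/-- table: `32` bits for each `r < 256`, the upper `16` are `3^a`, the lower ones `T^[8] r` -/
def TB : ℕ := 0x19a119a0088b088a02d902d802d902d802d902cf00f300f200f300ee00f300f200f300ec00f300ec005100500051005000f300e900f300e9001b001a00510050088b08030051004c0051004c0051004c02d902a2001b001a02d9029c001b001a02d902950051004a0051004a0051004a000900080009000802d90287001b001a02d9027e02d9027e005100470051004700f300d100510047001b00170051004700f300ce00f300ce000900080009000800f300ca00f300ca005100430009000802d9025102d90251001b0016001b001600510041001b001600510040001b001600f300be00090007000900070009000700f300bc00f300bc0051003e00090008088b066800f300b600f300b600f300b600f300b3001b00140051003b001b001400f300af00f300af001b0014001b0014001b0013001b0013001b0013001b001400f300a700510038005100380051003800f300a400030002088b05b10003000202d901df00f300a100f300a100f300a10051003500510035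00f3009b00030002088b055700f3009800f3009800f3009802d901bd001b001100510031001b0011001b0010001b0010001b0011001b00110051002f0051002f0051002f001b001100f3008900f30089000900050009000500f300860009000502d9018b000900050051002b0051002c0051002c0051002c001b000e001b000e00f3007d00030002088b044502d9016c00f3007900f3007900f300760051002802d9015e005100280051002600510026001b000d001b000d005100250051002500090004001b000d02d9013f00f3006b00f3006b00f3006b00f300670009000400f3006500090004088b037a001b000b001b000b001b000b001b000b001b000b00f3005e0009000400f3005b00f3005b001b000a001b000a02d90107001b000a0051001d001b000a0051001c0051001c000300010003000102d900f202d900f200f300500003000100f3004c00f3004c0051001a0051001a001b00080051001a00f300470051001a02d900ce001b0008001b0008001b00080051001600510016001b00070003000102d900b602d900b60051001400510014005100130051001400f300380051001402d900a102d900a100090002000900020051001100510011005100110009000202d90089001b0005001b0005001b00050051000e0009000202d900790009000200f300260051000d0051000d0051000d001b0004001b00040051000b0009000202d9005b0051000a0051000a0051000a088b00f20009000100f3001a000900010051000800510008000900010009000100f3001400f30014001b0002000900010051000500510005001b0002001b000200510004001b000200f3000a001b000200f30008001b0001001b0001001b000100510002005100020051000100010000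

/-- the power of `3` in `T^[k] (2^k x + r) = 3^a x + T^[k] r` -/
def aff : ℕ → ℕ → ℕ
  | 0, _ => 1
  | k + 1, r => if r % 2 = 0 then aff k (r / 2) else 3 * aff k ((3 * r + 1) / 2)

theorem aff_spec : ∀ (k x r : ℕ), T^[k] (2 ^ k * x + r) = aff k r * x + T^[k] r := by
  intro k
  induction k with
  | zero => intro x r; simp [aff]
  | succ k ih =>
    intro x r
    rw [Function.iterate_succ_apply, Function.iterate_succ_apply]
    have e : 2 ^ (k + 1) * x = 2 * (2 ^ k * x) := by ring
    by_cases h : r % 2 = 0
    · have h1 : T (2 ^ (k + 1) * x + r) = 2 ^ k * x + r / 2 := by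
        rw [e, T, if_pos (by omega)]; omega
      rw [h1, ih, aff, if_pos h, T, if_pos h]
    · have h1 : T (2 ^ (k + 1) * x + r) = 2 ^ k * (3 * x) + (3 * r + 1) / 2 := by
        have e2 : 2 ^ k * (3 * x) = 3 * (2 ^ k * x) := by ring
        rw [e, e2, T, if_neg (by omega)]; omega
      rw [h1, ih, aff, if_neg h, T, if_neg h]
      ring

theorem table_ok : ∀ r ∈ Finset.range 256,
    (TB >>> (32 * r) &&& 4294967295) >>> 16 = aff 8 r ∧ TB >>> (32 * r) &&& 65535 = T^[8] r := by
  decide +kernel

/-- eight steps of `T` -/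
def jmp (m : ℕ) : ℕ :=
  Nat.add (Nat.mul (Nat.shiftRight (Nat.land (Nat.shiftRight TB (Nat.mul 32 (Nat.land m 255)))
    4294967295) 16) (Nat.shiftRight m 8))
    (Nat.land (Nat.shiftRight TB (Nat.mul 32 (Nat.land m 255))) 65535)

theorem jmp_eq (m : ℕ) : jmp m = T^[8] m := by
  have h1 : jmp m = (TB >>> (32 * (m &&& 255)) &&& 4294967295) >>> 16 * (m >>> 8) +
      (TB >>> (32 * (m &&& 255)) &&& 65535) := rfl
  have h2 : m &&& 255 = m % 256 := Nat.and_two_pow_sub_one_eq_mod m 8
  have h3 : m >>> 8 = m / 256 := by rw [Nat.shiftRight_eq_div_pow]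
  obtain ⟨h4, h5⟩ := table_ok (m % 256) (Finset.mem_range.2 (Nat.mod_lt _ (by norm_num)))
  rw [h1, h2, h3, h4, h5]
  have h6 := aff_spec 8 (m / 256) (m % 256)
  rw [show (2 : ℕ) ^ 8 * (m / 256) + m % 256 = m by norm_num; omega] at h6
  rw [h6]

/-- follow the orbit of `m` until it is below `n` -/
def chkT (f : ℕ) : ℕ → ℕ → Bool :=
  Nat.rec (fun _ _ => false) (fun _ ih n m => cond (Nat.blt m n) true (ih n (jmp m))) f

/-- the numbers `n, n + p2, n + 2 p2, ...` up to `N` -/
def chkL (N p2 p3 : ℕ) (f : ℕ) : ℕ → ℕ → Bool :=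
  Nat.rec (fun _ _ => false) (fun _ ih n m =>
    cond (Nat.blt N n) true
      (cond (cond (Nat.beq (Nat.land (Nat.shiftRight 308 (Nat.mod n 9)) 1) 1) true (chkT 1000 n m))
        (ih (Nat.add n p2) (Nat.add m p3)) false)) f

/-- the class `p2 * x + r` descends -/
def stp (p2 r p3 s : ℕ) : Bool :=
  cond (Nat.blt p3 p2) (cond (Nat.blt s r) true (cond (Nat.ble s r) (Nat.ble r 1) false)) false

/-- the numbers `p2 * x + r` up to `N`, whose iterate of order `log p2` is `p3 * x + s` -/
def chkR (N : ℕ) (f : ℕ) : ℕ → ℕ → ℕ → ℕ → Bool :=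
  Nat.rec (fun p2 r p3 s => chkL N p2 p3 100000 r s) (fun _ ih p2 r p3 s =>
    cond (stp p2 r p3 s) true
      (cond (cond (Nat.beq (Nat.land s 1) 0) (ih (Nat.mul 2 p2) r p3 (Nat.shiftRight s 1))
          (ih (Nat.mul 2 p2) r (Nat.mul 3 p3) (Nat.shiftRight (Nat.add (Nat.mul 3 s) 1) 1)))
        (cond (Nat.beq (Nat.land (Nat.add p3 s) 1) 0)
          (ih (Nat.mul 2 p2) (Nat.add r p2) p3 (Nat.shiftRight (Nat.add p3 s) 1))
          (ih (Nat.mul 2 p2) (Nat.add r p2) (Nat.mul 3 p3)
            (Nat.shiftRight (Nat.add (Nat.mul 3 (Nat.add p3 s)) 1) 1)))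
        false)) f

private theorem chk_land (m : ℕ) : Nat.land m 1 = m % 2 := by
  have : m &&& 1 = m % 2 := Nat.and_one_is_mod m
  exact this

private theorem chk_shift (m : ℕ) : Nat.shiftRight m 1 = m / 2 := by
  have : m >>> 1 = m / 2 := by rw [Nat.shiftRight_eq_div_pow]
  exact this

private theorem chk_beq {a b : ℕ} : Nat.beq a b = true ↔ a = b := by
  rw [Nat.beq_eq]

private theorem chk_blt {a b : ℕ} : Nat.blt a b = true ↔ a < b := by
  rw [Nat.blt, Nat.ble_eq]; exact Iff.rfl

theorem chkT_succ (f n m : ℕ) :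
    chkT (f + 1) n m = cond (Nat.blt m n) true (chkT f n (jmp m)) := rfl

theorem chkL_succ (N p2 p3 f n m : ℕ) : chkL N p2 p3 (f + 1) n m =
    cond (Nat.blt N n) true
      (cond (cond (Nat.beq (Nat.land (Nat.shiftRight 308 (Nat.mod n 9)) 1) 1) true (chkT 1000 n m))
        (chkL N p2 p3 f (n + p2) (m + p3)) false) := rfl

theorem chkR_succ (N f p2 r p3 s : ℕ) : chkR N (f + 1) p2 r p3 s =
    cond (stp p2 r p3 s) true
      (cond (cond (Nat.beq (Nat.land s 1) 0) (chkR N f (2 * p2) r p3 (Nat.shiftRight s 1))
          (chkR N f (2 * p2) r (3 * p3) (Nat.shiftRight (3 * s + 1) 1)))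
        (cond (Nat.beq (Nat.land (p3 + s) 1) 0)
          (chkR N f (2 * p2) (r + p2) p3 (Nat.shiftRight (p3 + s) 1))
          (chkR N f (2 * p2) (r + p2) (3 * p3) (Nat.shiftRight (3 * (p3 + s) + 1) 1)))
        false) := rfl

theorem chkT_sound : ∀ (f n m k : ℕ), T^[k] n = m → chkT f n m = true → Desc n := by
  intro f
  induction f with
  | zero => intro n m k _ h; exact absurd h (by simp [chkT])
  | succ f ih =>
    intro n m k hk h
    rw [chkT_succ, Bool.cond_eq_ite] at h
    split_ifs at h with h1
    · rw [chk_blt] at h1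
      exact ⟨k, by rw [hk]; exact h1⟩
    · refine ih n (jmp m) (8 + k) ?_ h
      rw [Function.iterate_add_apply, hk, jmp_eq]

private theorem chk_mask (n : ℕ) (h : Nat.land (Nat.shiftRight 308 (Nat.mod n 9)) 1 = 1) :
    n % 9 = 2 ∨ n % 9 = 4 ∨ n % 9 = 5 ∨ n % 9 = 8 := by
  have h1 : Nat.mod n 9 = n % 9 := rfl
  rw [h1] at h
  obtain ⟨r, hr⟩ : ∃ r, r = n % 9 := ⟨_, rfl⟩
  rw [← hr] at h ⊢
  have h2 : r < 9 := by rw [hr]; exact Nat.mod_lt _ (by norm_num)
  interval_cases r <;> revert h <;> decide

theorem chkL_sound (N p2 p3 k : ℕ) : ∀ (f n m : ℕ), (∀ y, T^[k] (n + p2 * y) = m + p3 * y) →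
    chkL N p2 p3 f n m = true → ∀ y, n + p2 * y ≤ N → Good (n + p2 * y) := by
  intro f
  induction f with
  | zero => intro n m _ h; exact absurd h (by simp [chkL])
  | succ f ih =>
    intro n m hinv h y hy
    rw [chkL_succ, Bool.cond_eq_ite] at h
    split_ifs at h with h1
    · rw [chk_blt] at h1
      exact absurd hy (by have : 0 ≤ p2 * y := Nat.zero_le _; omega)
    · rw [Bool.cond_eq_ite] at h
      split_ifs at h with h2
      rcases y with _ | y
      · rw [Nat.mul_zero, Nat.add_zero]
        rw [Bool.cond_eq_ite] at h2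
        split_ifs at h2 with h3
        · rw [chk_beq] at h3
          exact Or.inl (chk_mask n h3)
        · have h4 := hinv 0
          rw [Nat.mul_zero, Nat.add_zero, Nat.mul_zero, Nat.add_zero] at h4
          exact Or.inr (chkT_sound 1000 n m k h4 h2)
      · have e : n + p2 * (y + 1) = n + p2 + p2 * y := by ring
        rw [e] at hy ⊢
        refine ih (n + p2) (m + p3) (fun z => ?_) h y hy
        have h5 := hinv (z + 1)
        rw [show n + p2 + p2 * z = n + p2 * (z + 1) by ring, h5]
        ring

theorem chkR_sound (N : ℕ) : ∀ (f p2 r p3 s k : ℕ), 0 < p2 →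
    (∀ x, T^[k] (p2 * x + r) = p3 * x + s) → chkR N f p2 r p3 s = true →
    ∀ x, 2 ≤ p2 * x + r → p2 * x + r ≤ N → Good (p2 * x + r) := by
  intro f
  induction f with
  | zero =>
    intro p2 r p3 s k _ hinv h x _ hN
    have h' : chkL N p2 p3 100000 r s = true := h
    rw [Nat.add_comm] at hN ⊢
    refine chkL_sound N p2 p3 k 100000 r s (fun y => ?_) h' x hN
    rw [Nat.add_comm r, hinv, Nat.add_comm]
  | succ f ih =>
    intro p2 r p3 s k hp hinv h x h2 hN
    rw [chkR_succ, Bool.cond_eq_ite] at h
    split_ifs at h with h1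
    · rw [stp, Bool.cond_eq_ite] at h1
      split_ifs at h1 with h3
      rw [chk_blt] at h3
      refine Or.inr ⟨k, ?_⟩
      rw [hinv x]
      rw [Bool.cond_eq_ite] at h1
      split_ifs at h1 with h4
      · rw [chk_blt] at h4
        have : p3 * x ≤ p2 * x := Nat.mul_le_mul_right x h3.le
        omega
      · rw [Bool.cond_eq_ite] at h1
        split_ifs at h1 with h5
        rw [Nat.ble_eq] at h1 h5
        have hx : 0 < x := by
          rcases Nat.eq_zero_or_pos x with h6 | h6
          · rw [h6] at h2; omega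
          · exact h6
        have : p3 * x < p2 * x := Nat.mul_lt_mul_of_pos_right h3 hx
        omega
    · rw [Bool.cond_eq_ite] at h
      split_ifs at h with ha
      have hb := h
      rw [Bool.cond_eq_ite] at ha hb
      obtain ⟨y, hy | hy⟩ := Nat.even_or_odd' x
      · -- `x = 2 y`
        have e1 : p2 * x + r = 2 * p2 * y + r := by rw [hy]; ring
        rw [e1] at h2 hN ⊢
        have hT : ∀ z, T^[k + 1] (2 * p2 * z + r) = T (p3 * (2 * z) + s) := by
          intro z
          rw [Function.iterate_succ_apply', show 2 * p2 * z + r = p2 * (2 * z) + r by ring,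
            hinv]
        split_ifs at ha with h4
        · rw [chk_beq, chk_land] at h4
          rw [chk_shift] at ha
          refine ih (2 * p2) r p3 (s / 2) (k + 1) (by omega) ?_ ha y h2 hN
          intro z
          have e2 : p3 * (2 * z) = 2 * (p3 * z) := by ring
          rw [hT, e2, T, if_pos (by omega)]
          omega
        · rw [chk_beq, chk_land] at h4
          rw [chk_shift] at ha
          refine ih (2 * p2) r (3 * p3) ((3 * s + 1) / 2) (k + 1) (by omega) ?_ ha y h2 hN
          intro z
          have e2 : p3 * (2 * z) = 2 * (p3 * z) := by ring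
          have e3 : 3 * p3 * z = 3 * (p3 * z) := by ring
          rw [hT, e2, e3, T, if_neg (by omega)]
          omega
      · -- `x = 2 y + 1`
        have e1 : p2 * x + r = 2 * p2 * y + (r + p2) := by rw [hy]; ring
        rw [e1] at h2 hN ⊢
        have hT : ∀ z, T^[k + 1] (2 * p2 * z + (r + p2)) = T (p3 * (2 * z) + (p3 + s)) := by
          intro z
          rw [Function.iterate_succ_apply', show 2 * p2 * z + (r + p2) = p2 * (2 * z + 1) + r by ring,
            hinv, show p3 * (2 * z + 1) + s = p3 * (2 * z) + (p3 + s) by ring]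
        split_ifs at hb with h4
        · rw [chk_beq, chk_land] at h4
          rw [chk_shift] at hb
          refine ih (2 * p2) (r + p2) p3 ((p3 + s) / 2) (k + 1) (by omega) ?_ hb y h2 hN
          intro z
          have e2 : p3 * (2 * z) = 2 * (p3 * z) := by ring
          rw [hT, e2, T, if_pos (by omega)]
          omega
        · rw [chk_beq, chk_land] at h4
          rw [chk_shift] at hb
          refine ih (2 * p2) (r + p2) (3 * p3) ((3 * (p3 + s) + 1) / 2) (k + 1) (by omega) ?_
            hb y h2 hN
          intro z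
          have e2 : p3 * (2 * z) = 2 * (p3 * z) := by ring
          have e3 : 3 * p3 * z = 3 * (p3 * z) := by ring
          rw [hT, e2, e3, T, if_neg (by omega)]
          omega

/-- the nodes at depth `d` of the tree of residue classes -/
def leaves : ℕ → ℕ → ℕ → ℕ → ℕ → List (ℕ × ℕ × ℕ × ℕ)
  | 0, p2, r, p3, s => [(p2, r, p3, s)]
  | d + 1, p2, r, p3, s => if stp p2 r p3 s then [] else
      (if s % 2 = 0 then leaves d (2 * p2) r p3 (s / 2)
        else leaves d (2 * p2) r (3 * p3) ((3 * s + 1) / 2)) ++
      (if (p3 + s) % 2 = 0 then leaves d (2 * p2) (r + p2) p3 ((p3 + s) / 2)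
        else leaves d (2 * p2) (r + p2) (3 * p3) ((3 * (p3 + s) + 1) / 2))

theorem leaves_sound (N f : ℕ) : ∀ (d p2 r p3 s : ℕ),
    (∀ q ∈ leaves d p2 r p3 s, chkR N f q.1 q.2.1 q.2.2.1 q.2.2.2 = true) →
    chkR N (f + d) p2 r p3 s = true := by
  intro d
  induction d with
  | zero => intro p2 r p3 s h; exact h (p2, r, p3, s) (by simp [leaves])
  | succ d ih =>
    intro p2 r p3 s h
    rw [← Nat.add_assoc, chkR_succ, Bool.cond_eq_ite]
    split_ifs with h1
    · rfl
    rw [Bool.cond_eq_ite]
    have hl : ∀ q ∈ (if s % 2 = 0 then leaves d (2 * p2) r p3 (s / 2)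
        else leaves d (2 * p2) r (3 * p3) ((3 * s + 1) / 2)) ++
      (if (p3 + s) % 2 = 0 then leaves d (2 * p2) (r + p2) p3 ((p3 + s) / 2)
        else leaves d (2 * p2) (r + p2) (3 * p3) ((3 * (p3 + s) + 1) / 2)),
        chkR N f q.1 q.2.1 q.2.2.1 q.2.2.2 = true := by
      intro q hq
      apply h q
      rw [leaves, if_neg h1]
      exact hq
    have hA : cond (Nat.beq (Nat.land s 1) 0) (chkR N (f + d) (2 * p2) r p3 (Nat.shiftRight s 1))
          (chkR N (f + d) (2 * p2) r (3 * p3) (Nat.shiftRight (3 * s + 1) 1)) = true := by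
      rw [Bool.cond_eq_ite]
      split_ifs with h4
      · rw [chk_beq, chk_land] at h4
        rw [chk_shift]
        refine ih _ _ _ _ (fun q hq => hl q ?_)
        rw [if_pos h4]
        exact List.mem_append_left _ hq
      · rw [chk_beq, chk_land] at h4
        rw [chk_shift]
        refine ih _ _ _ _ (fun q hq => hl q ?_)
        rw [if_neg h4]
        exact List.mem_append_left _ hq
    have hB : cond (Nat.beq (Nat.land (p3 + s) 1) 0)
          (chkR N (f + d) (2 * p2) (r + p2) p3 (Nat.shiftRight (p3 + s) 1))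
          (chkR N (f + d) (2 * p2) (r + p2) (3 * p3) (Nat.shiftRight (3 * (p3 + s) + 1) 1)) = true := by
      rw [Bool.cond_eq_ite]
      split_ifs with h4
      · rw [chk_beq, chk_land] at h4
        rw [chk_shift]
        refine ih _ _ _ _ (fun q hq => hl q ?_)
        rw [if_pos h4]
        exact List.mem_append_right _ hq
      · rw [chk_beq, chk_land] at h4
        rw [chk_shift]
        refine ih _ _ _ _ (fun q hq => hl q ?_)
        rw [if_neg h4]
        exact List.mem_append_right _ hq
    rw [if_pos hA]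
    exact hB

/-- a number in one of the residue classes `2, 4, 5, 8 mod 9` is in the orbit of a smaller number -/
private theorem chk_pre {n : ℕ} (h1 : 2 ≤ n) (h : n % 9 = 2 ∨ n % 9 = 4 ∨ n % 9 = 5 ∨ n % 9 = 8) :
    ∃ m j : ℕ, 1 ≤ m ∧ m < n ∧ T^[j] m = n := by
  have hc : n % 3 = 2 ∨ n % 9 = 4 := by omega
  rcases hc with h2 | h2
  · obtain ⟨y, hy⟩ : ∃ y, n = 3 * y + 2 := ⟨n / 3, by omega⟩
    refine ⟨2 * y + 1, 1, by omega, by omega, ?_⟩
    rw [Function.iterate_one, T, if_neg (by omega)]
    omega
  · obtain ⟨y, hy⟩ : ∃ y, n = 9 * y + 4 := ⟨n / 9, by omega⟩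
    refine ⟨8 * y + 3, 3, by omega, by omega, ?_⟩
    have e1 : T (8 * y + 3) = 12 * y + 5 := by rw [T, if_neg (by omega)]; omega
    have e2 : T (12 * y + 5) = 18 * y + 8 := by rw [T, if_neg (by omega)]; omega
    have e3 : T (18 * y + 8) = 9 * y + 4 := by rw [T, if_pos (by omega)]; omega
    rw [Function.iterate_succ_apply, Function.iterate_succ_apply, Function.iterate_one, e1, e2, e3, hy]

theorem reach_of_good {N : ℕ} (h : ∀ n, 2 ≤ n → n ≤ N → Good n) :
    ∀ n, 1 ≤ n → n ≤ N → ∃ j : ℕ, T^[j] n = 1 := by
  intro n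
  induction n using Nat.strong_induction_on with
  | _ n ih =>
    intro h1 h2
    rcases eq_or_lt_of_le h1 with h3 | h3
    · exact ⟨0, h3.symm⟩
    · rcases h n h3 h2 with h4 | ⟨k, hk⟩
      · obtain ⟨m, j, hm1, hm2, hm3⟩ := chk_pre h3 h4
        obtain ⟨i, hi⟩ := ih m hm2 hm1 (by omega)
        rcases le_total j i with h5 | h5
        · refine ⟨i - j, ?_⟩
          rw [← hm3, ← Function.iterate_add_apply, Nat.sub_add_cancel h5, hi]
        · have h6 : T^[j - i] 1 = n := by
            rw [← hi, ← Function.iterate_add_apply, Nat.sub_add_cancel h5, hm3]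
          rcases orbit_one (j - i) with h7 | h7
          · omega
          · exact ⟨1, by rw [← h6, h7]; rfl⟩
      · obtain ⟨j, hj⟩ := ih _ hk (T_iter_pos (by omega) k) (by omega)
        exact ⟨j + k, by rw [Function.iterate_add_apply, hj]⟩

/-- the checker is sound -/
theorem reach_of_chk {N f : ℕ} (h : chkR N f 1 0 1 0 = true) :
    ∀ n, 1 ≤ n → n ≤ N → ∃ j : ℕ, T^[j] n = 1 := by
  refine reach_of_good fun n h2 hN => ?_
  have h3 := chkR_sound N f 1 0 1 0 0 one_pos (fun x => rfl) h n (by omega) (by omega)
  rwa [show 1 * n + 0 = n by ring] at h3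

end Pool.Agent.Lib.MP_a247fa_nt.Ver
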