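import Pool.Agent.Lib.MP_a247fa_nt.W.AttOf
import Pool.Agent.Lib.MP_a247fa_nt.Dens.Attract
import Pool.Agent.Lib.MP_a247fa_nt.Crit.NearOne

/-! CONVONE. All points of the trap at an integer whose `T`-orbit reaches `1`, except countably many, converge to one of
the two known attracting cycles. -/

set_option autoImplicit false

namespace Pool.Agent.Lib.MP_a247fa_nt.Ver

open Set MeasureTheory Filter Topology
open Pool.Agent.Lib.MP_a247fa_nt.Crit

/-- the orbit of `y` converges to one of the two known attracting cycles -/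
def Conv (y : ℝ) : Prop := y ∈ Dens.attracted {1, 2} ∨ y ∈ Dens.attracted {aPt, bPt}

/-- the repelling fixed points of `g = cf ∘ cf` between `1.02` and `1.05` -/
def Rep : Set ℝ := {q | 1 + 0.02 ≤ q ∧ q ≤ 1 + 0.05 ∧ g q = q}

/-- the points whose orbit meets `Rep` -/
def Exc : Set ℝ := {y | ∃ k : ℕ, cf^[k] y ∈ Rep}

theorem exc_iter {y : ℝ} (k : ℕ) (h : cf^[k] y ∈ Exc) : y ∈ Exc := by
  obtain ⟨j, hj⟩ := h
  refine ⟨j + k, ?_⟩
  rwa [← Function.iterate_add_apply] at hj

/-- `cf^[2k+j] y` converges to `aPt` -/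
def ToA (y : ℝ) : Prop := ∃ j : ℕ, Tendsto (fun k : ℕ => cf^[2 * k + j] y) atTop (𝓝 aPt)

theorem toA_iter {c : ℝ} {n : ℕ} (h : ToA (cf^[n] c)) : ToA c := by
  obtain ⟨j, hj⟩ := h
  refine ⟨j + n, hj.congr (fun k => ?_)⟩
  rw [← Function.iterate_add_apply, show 2 * k + j + n = 2 * k + (j + n) by ring]

/-- generic: convergence of every second iterate gives `attracted` -/
theorem attracted_of_tendsto {y p q : ℝ} (hy : 0 < y) (hpq : cf p = q) {j : ℕ}
    (h : Tendsto (fun k : ℕ => cf^[2 * k + j] y) atTop (𝓝 p)) : y ∈ Dens.attracted {p, q} := by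
  refine ⟨hy, ?_⟩
  have h2 : Tendsto (fun k : ℕ => cf^[2 * k + 1 + j] y) atTop (𝓝 q) := by
    have := (continuous_cf.tendsto p).comp h
    rw [hpq] at this
    refine this.congr (fun k => ?_)
    simp only [Function.comp_apply]
    rw [← Function.iterate_succ_apply' cf, show (2 * k + j).succ = 2 * k + 1 + j by omega]
  rw [Metric.tendsto_atTop] at h h2 ⊢
  intro ε hε
  obtain ⟨N1, h3⟩ := h ε hε
  obtain ⟨N2, h4⟩ := h2 ε hε
  refine ⟨2 * (N1 + N2) + j, fun k hk => ?_⟩
  rw [Real.dist_eq, sub_zero, abs_of_nonneg Metric.infDist_nonneg]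
  obtain ⟨i, hi⟩ : ∃ i, k = i + j := ⟨k - j, by omega⟩
  rcases Nat.even_or_odd' i with ⟨l, rfl | rfl⟩
  · refine (Metric.infDist_le_dist_of_mem (y := p) (by simp)).trans_lt ?_
    rw [hi]
    exact h3 l (by omega)
  · refine (Metric.infDist_le_dist_of_mem (y := q) (by simp)).trans_lt ?_
    rw [hi]
    exact h4 l (by omega)

theorem conv_of_toOne {y : ℝ} (hy : 0 < y) (h : ToOne y) : Conv y := by
  obtain ⟨j, hj⟩ := h
  exact Or.inl (attracted_of_tendsto hy cf_one hj)

theorem conv_of_toA {y : ℝ} (hy : 0 < y) (h : ToA y) : Conv y := by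
  obtain ⟨j, hj⟩ := h
  exact Or.inr (attracted_of_tendsto hy rfl hj)

theorem toA_of_K {x : ℝ} (hx : x ∈ K) : Tendsto (fun k : ℕ => g^[k] x) atTop (𝓝 aPt) := by
  have key : ∀ n : ℕ, |g^[n] x - aPt| ≤ (1 / 2) ^ n * |x - aPt| := by
    intro n
    induction n with
    | zero => simp
    | succ n ih =>
      rw [Function.iterate_succ_apply']
      have h1 := g_contract (g_iter_mem_K hx n) aPt_mem
      rw [g_aPt] at h1
      calc |g (g^[n] x) - aPt| ≤ 1 / 2 * |g^[n] x - aPt| := h1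
        _ ≤ 1 / 2 * ((1 / 2) ^ n * |x - aPt|) := mul_le_mul_of_nonneg_left ih (by norm_num)
        _ = (1 / 2) ^ (n + 1) * |x - aPt| := by ring
  rw [tendsto_iff_dist_tendsto_zero]
  have h7 : Tendsto (fun k : ℕ => (1 / 2 : ℝ) ^ k * |x - aPt|) atTop (𝓝 0) := by
    have := (tendsto_pow_atTop_nhds_zero_of_lt_one (by norm_num : (0 : ℝ) ≤ 1 / 2)
      (by norm_num)).mul_const (|x - aPt|)
    simpa using this
  refine squeeze_zero (fun _ => dist_nonneg) (fun k => ?_) h7
  rw [Real.dist_eq]; exact key k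

theorem toA_of_g {x : ℝ} {n : ℕ} (h : g^[n] x ∈ K) : ToA x := by
  have h1 := toA_of_K h
  rw [g_iterate n] at h1
  apply toA_iter (n := 2 * n)
  refine ⟨0, h1.congr (fun k => ?_)⟩
  rw [g_iterate, Nat.add_zero]

theorem convone_hi {x : ℝ} (h1 : 1 + 0.127 ≤ x) (h2 : x ≤ 1 + 4 / 15) : ToA x := by
  have h6 : cf x ≤ 2 + 0.1395 := cf_le_max (by linarith) h2
  have h7 : 2 + 0.1077 ≤ cf x := by
    have := cf_ge_min (x := 1 + 0.127) (y := 1 + 4 / 15) (z := x) (by norm_num) (by norm_num) h1 h2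
    refine le_trans ?_ this
    rw [le_min_iff]
    exact ⟨le_trans (by norm_num) n_f127, n_fend⟩
  have h8 : 1 + 0.127 ≤ g x := n_Fend.trans (cf_mono_right (by norm_num) (by linarith) h7)
  have h9 : g x ≤ 1 + 0.195 := (cf_mono_right (by linarith) (by norm_num) h6).trans n_Fc
  have h10 := g_mem_K' h8 h9
  exact toA_of_g (n := 2) h10

theorem convone_mid {x : ℝ} (h1 : 1 + 0.05 ≤ x) (h2 : x ≤ 1 + 4 / 15) : ToA x := by
  by_cases hex : ∃ k : ℕ, 1 + 0.127 ≤ g^[k] x
  · obtain ⟨k, hk⟩ := hex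
    have hx : x ∈ trapI 1 := by rw [trapI_one]; exact ⟨by linarith, h2⟩
    have h3 := g_iter_mem hx k
    rw [trapI_one] at h3
    have h4 := convone_hi hk h3.2
    rw [g_iterate k] at h4
    exact toA_iter h4
  · exfalso
    push Not at hex
    have hall : ∀ k : ℕ, 1 + 0.05 ≤ g^[k] x := by
      intro k
      induction k with
      | zero => exact h1
      | succ k ih =>
        rw [Function.iterate_succ_apply']
        exact ih.trans (self_lt_g ih (hex k)).le
    have hmono : Monotone (fun k : ℕ => g^[k] x) := by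
      apply monotone_nat_of_le_succ
      intro k
      rw [Function.iterate_succ_apply']
      exact (self_lt_g (hall k) (hex k)).le
    have hbdd : BddAbove (Set.range (fun k : ℕ => g^[k] x)) := by
      refine ⟨1 + 0.127, ?_⟩
      rintro _ ⟨k, rfl⟩
      exact (hex k).le
    have hlim := tendsto_atTop_ciSup hmono hbdd
    obtain ⟨L, hL⟩ : ∃ L : ℝ, L = ⨆ k : ℕ, g^[k] x := ⟨_, rfl⟩
    rw [← hL] at hlim
    have hL1 : L ≤ 1 + 0.127 := le_of_tendsto' hlim (fun k => (hex k).le)
    have hL2 : 1 + 0.05 ≤ L := ge_of_tendsto' hlim hall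
    have hgc : Continuous g := continuous_cf.comp continuous_cf
    have hfix : g L = L := by
      have e1 : Tendsto (fun k : ℕ => g (g^[k] x)) atTop (𝓝 (g L)) :=
        (hgc.tendsto L).comp hlim
      have e2 : Tendsto (fun k : ℕ => g (g^[k] x)) atTop (𝓝 L) := by
        have := hlim.comp (tendsto_add_atTop_nat 1)
        refine this.congr (fun k => ?_)
        simp only [Function.comp_apply, Function.iterate_succ_apply']
      exact tendsto_nhds_unique e1 e2
    rcases lt_or_eq_of_le hL1 with h | h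
    · exact absurd hfix (self_lt_g hL2 h).ne'
    · have h5 : 1 + 0.165 ≤ g L := (g_mem_K' h.ge (by linarith)).1
      rw [hfix] at h5
      linarith

/-- strict form of `one_le_deriv_g` -/
theorem convone_deriv {x : ℝ} (h1 : 1 + 0.02 ≤ x) (h2 : x ≤ 1 + 0.05) :
    1 + 0.06 ≤ dcf (cf x) * dcf x := by
  have h6 : cf x ≤ 2 + 0.1395 := cf_le_max (by linarith) (by linarith)
  rcases le_total x (1 + 0.03) with h | h
  · have h3 : 1.27 ≤ dcf x := n_d103.trans (dcf_strictAnti.antitoneOn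
      ⟨by linarith, by linarith⟩ ⟨by norm_num, by norm_num⟩ h)
    have h4 : 2 + 0.0284 ≤ cf x := n_f102.trans (cf_mono_left (by norm_num) (by linarith) h1)
    have h5 : 0.84 ≤ dcf (cf x) := n_D102.trans (dcf_strictMono_right.monotoneOn
      ⟨by norm_num, by norm_num⟩ ⟨by linarith, by linarith⟩ h4)
    calc (1 + 0.06 : ℝ) ≤ 0.84 * 1.27 := by norm_num
      _ ≤ dcf (cf x) * dcf x := mul_le_mul h5 h3 (by norm_num) (by linarith)
  · have h3 : 1.11 ≤ dcf x := n_d105.trans (dcf_strictAnti.antitoneOn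
      ⟨by linarith, by linarith⟩ ⟨by norm_num, by norm_num⟩ h2)
    have h4 : 2 + 0.0415 ≤ cf x := n_f103.trans (cf_mono_left (by norm_num) (by linarith) h)
    have h5 : 1 ≤ dcf (cf x) := n_D103.trans (dcf_strictMono_right.monotoneOn
      ⟨by norm_num, by norm_num⟩ ⟨by linarith, by linarith⟩ h4)
    calc (1 + 0.06 : ℝ) ≤ 1 * 1.11 := by norm_num
      _ ≤ dcf (cf x) * dcf x := mul_le_mul h5 h3 (by norm_num) (by linarith)

/-- `g` expands on `[1.02, 1.05]` -/
theorem convone_expand {x y : ℝ} (h1 : 1 + 0.02 ≤ x) (hxy : x ≤ y) (h2 : y ≤ 1 + 0.05) :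
    (1 + 0.06) * (y - x) ≤ g y - g x := by
  rcases eq_or_lt_of_le hxy with he | hl
  · rw [he]; simp
  · have hd : Differentiable ℝ g := fun z => (hasDerivAt_g z).differentiableAt
    obtain ⟨z, hz, hz2⟩ := exists_deriv_eq_slope g hl hd.continuous.continuousOn
      hd.differentiableOn
    rw [(hasDerivAt_g z).deriv, eq_div_iff (by linarith)] at hz2
    rw [← hz2]
    exact mul_le_mul_of_nonneg_right (convone_deriv (by linarith [hz.1]) (by linarith [hz.2]))
      (by linarith)

/-- there is a fixed point of `g` in `[1.02, 1.05]` -/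
theorem exists_rep : ∃ q, q ∈ Rep := by
  have hcont : Continuous g := continuous_cf.comp continuous_cf
  have h1 : g (1 + 0.02) - (1 + 0.02) ≤ 0 := by
    have := g_lt_self (x := 1 + 0.02) (by norm_num) le_rfl
    linarith
  have h2 : 0 ≤ g (1 + 0.05) - (1 + 0.05) := by
    have := self_lt_g (x := 1 + 0.05) le_rfl (by norm_num)
    linarith
  have hc : ContinuousOn (fun x => g x - x) (Icc (1 + 0.02) (1 + 0.05)) := by fun_prop
  obtain ⟨q, hq, hq2⟩ := intermediate_value_Icc (by norm_num) hc ⟨h1, h2⟩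
  exact ⟨q, hq.1, hq.2, by simp only at hq2; linarith⟩

theorem rep_subsingleton : Rep.Subsingleton := by
  have key : ∀ x ∈ Rep, ∀ y ∈ Rep, x ≤ y → x = y := by
    rintro x ⟨h1, h2, h3⟩ y ⟨h4, h5, h6⟩ hxy
    have h7 := convone_expand h1 hxy h5
    rw [h3, h6] at h7
    nlinarith
  intro x hx y hy
  rcases le_total x y with h | h
  · exact key x hx y hy h
  · exact (key y hy x hx h).symm

/-- every point of the trap at `1` which is not mapped to the repelling point converges to one of the cycles -/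
theorem convone_trap_one {x : ℝ} (hx : x ∈ trapI 1) (he : x ∉ Exc) : ToOne x ∨ ToA x := by
  rw [trapI_one] at hx
  rcases le_total (1 + 0.05) x with h | h
  · exact Or.inr (convone_mid h hx.2)
  rcases le_total x (1 + 0.02) with h' | h'
  · exact Or.inl (toOne_right hx.1 h')
  obtain ⟨q, hq1, hq2, hq3⟩ := exists_rep
  -- the orbit leaves `[1.02, 1.05]`
  have hleave : ∃ k : ℕ, g^[k] x < 1 + 0.02 ∨ 1 + 0.05 < g^[k] x := by
    by_contra hcon
    push Not at hcon
    have hne : x ≠ q := by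
      rintro rfl
      exact he ⟨0, hq1, hq2, hq3⟩
    have hstep : ∀ k : ℕ, (1 + 0.06) ^ k * |x - q| ≤ |g^[k] x - q| := by
      intro k
      induction k with
      | zero => simp
      | succ k ih =>
        rw [Function.iterate_succ_apply']
        obtain ⟨h3, h4⟩ := hcon k
        have h5 : (1 + 0.06) * |g^[k] x - q| ≤ |g (g^[k] x) - q| := by
          rcases le_total (g^[k] x) q with h6 | h6
          · have h7 := convone_expand h3 h6 hq2
            rw [hq3] at h7
            rw [abs_of_nonpos (by linarith), abs_of_nonpos (by nlinarith)]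
            linarith
          · have h7 := convone_expand hq1 h6 h4
            rw [hq3] at h7
            rw [abs_of_nonneg (by linarith), abs_of_nonneg (by nlinarith)]
            linarith
        calc (1 + 0.06) ^ (k + 1) * |x - q| = (1 + 0.06) * ((1 + 0.06) ^ k * |x - q|) := by ring
          _ ≤ (1 + 0.06) * |g^[k] x - q| := mul_le_mul_of_nonneg_left ih (by norm_num)
          _ ≤ _ := h5
    have hpos : 0 < |x - q| := abs_pos.2 (sub_ne_zero.2 hne)
    obtain ⟨k, hk⟩ := pow_unbounded_of_one_lt (1 / |x - q|) (by norm_num : (1 : ℝ) < 1 + 0.06)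
    rw [div_lt_iff₀ hpos] at hk
    have h8 := hstep k
    obtain ⟨h3, h4⟩ := hcon k
    have h9 : |g^[k] x - q| ≤ 1 := by
      rw [abs_le]; constructor <;> norm_num at * <;> linarith
    linarith
  obtain ⟨k, hk⟩ := hleave
  have hx1 : x ∈ trapI 1 := by rw [trapI_one]; exact hx
  have h3 := g_iter_mem hx1 k
  rw [trapI_one] at h3
  rcases hk with hk | hk
  · left
    have h4 := toOne_right h3.1 hk.le
    rw [g_iterate k] at h4
    exact toOne_iter h4
  · right
    have h4 := convone_mid hk.le h3.2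
    rw [g_iterate k] at h4
    exact toA_iter h4

theorem conv_trap {m : ℕ} (hm : 0 < m) (hT : ∃ j : ℕ, T^[j] m = 1) {x : ℝ} (hx : x ∈ trapI m)
    (he : x ∉ Exc) : Conv x := by
  obtain ⟨j, hj⟩ := hT
  have h1 := (iter_mem_trap hm hx j).2
  rw [hj] at h1
  have hx0 : 0 < x := by
    have : (1 : ℝ) ≤ m := by exact_mod_cast hm
    linarith [hx.1]
  rcases convone_trap_one h1 (fun h => he (exc_iter j h)) with h | h
  · exact conv_of_toOne hx0 (toOne_iter h)
  · exact conv_of_toA hx0 (toA_iter h)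

private theorem convone_step_one {d : ℝ} (h1 : 0 ≤ d) (h2 : d ≤ 1 / 50) :
    2 - 63 / 40 * d ≤ cf (1 - d) ∧ cf (1 - d) ≤ 2 := by
  have hc0 := one_sub_cos_nonneg (Real.pi * -d)
  have hc1 := one_sub_cos_le (-d)
  have hv := cf_odd 1 rfl (-d)
  have hy : ((1 : ℕ) : ℝ) + -d = 1 - d := by push_cast; ring
  rw [hy] at hv
  obtain ⟨c, hc⟩ : ∃ c, c = 1 - Real.cos (Real.pi * -d) := ⟨_, rfl⟩
  have hcos : Real.cos (Real.pi * -d) = 1 - c := by rw [hc]; ring
  rw [← hc] at hc0 hc1
  rw [hcos] at hv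
  have hv2 : cf (1 - d) = 2 - 3 / 2 * d - (3 / 4 - d / 2) * c := by rw [hv]; push_cast; ring
  have hpi := pi_sq_lt
  have hc2 : c ≤ 1 / 10 * d := by
    have e1 : Real.pi ^ 2 * (-d) ^ 2 / 2 = Real.pi ^ 2 * (d * d) / 2 := by ring
    rw [e1] at hc1
    have e2 : Real.pi ^ 2 * (d * d) ≤ 9.87 * (d * d) :=
      mul_le_mul_of_nonneg_right hpi.le (mul_nonneg h1 h1)
    have e3 : d * d ≤ 1 / 50 * d := mul_le_mul_of_nonneg_right h2 h1
    norm_num at e2
    linarith
  constructor
  · rw [hv2]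
    have h5 : (3 / 4 - d / 2) * c ≤ 3 / 4 * c := mul_le_mul_of_nonneg_right (by linarith) hc0
    linarith
  · rw [hv2]
    have h5 : 0 ≤ (3 / 4 - d / 2) * c := mul_nonneg (by linarith) hc0
    linarith

private theorem convone_step_two {d : ℝ} (h1 : 0 ≤ d) (h2 : d ≤ 1 / 30) :
    1 - 1 / 2 * d ≤ cf (2 - d) ∧ cf (2 - d) ≤ 1 := by
  have hc0 := one_sub_cos_nonneg (Real.pi * -d)
  have hc1 := one_sub_cos_le (-d)
  have hv := cf_even 2 rfl (-d)
  have hy : ((2 : ℕ) : ℝ) + -d = 2 - d := by push_cast; ring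
  rw [hy] at hv
  obtain ⟨c, hc⟩ : ∃ c, c = 1 - Real.cos (Real.pi * -d) := ⟨_, rfl⟩
  have hcos : Real.cos (Real.pi * -d) = 1 - c := by rw [hc]; ring
  rw [← hc] at hc0 hc1
  rw [hcos] at hv
  have hv2 : cf (2 - d) = 1 - d / 2 + (5 / 4 - d / 2) * c := by rw [hv]; push_cast; ring
  have hpi := pi_sq_lt
  have hc2 : c ≤ 1 / 5 * d := by
    have e1 : Real.pi ^ 2 * (-d) ^ 2 / 2 = Real.pi ^ 2 * (d * d) / 2 := by ring
    rw [e1] at hc1
    have e2 : Real.pi ^ 2 * (d * d) ≤ 9.87 * (d * d) :=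
      mul_le_mul_of_nonneg_right hpi.le (mul_nonneg h1 h1)
    have e3 : d * d ≤ 1 / 30 * d := mul_le_mul_of_nonneg_right h2 h1
    norm_num at e2
    linarith
  constructor
  · rw [hv2]
    have h5 : 0 ≤ (5 / 4 - d / 2) * c := mul_nonneg (by linarith) hc0
    linarith
  · rw [hv2]
    have h5 : (5 / 4 - d / 2) * c ≤ 5 / 4 * c := mul_le_mul_of_nonneg_right (by linarith) hc0
    linarith

theorem toOne_left {y : ℝ} (h1 : 49 / 50 ≤ y) (h2 : y ≤ 1) : ToOne y := by
  have key : ∀ k : ℕ, 1 - (63 / 80 : ℝ) ^ k * (1 - y) ≤ cf^[2 * k] y ∧ cf^[2 * k] y ≤ 1 := by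
    intro k
    induction k with
    | zero => simp [h2]
    | succ k ih =>
      rw [show 2 * (k + 1) = (2 * k + 1) + 1 by ring, Function.iterate_succ_apply',
        Function.iterate_succ_apply']
      obtain ⟨z, hz⟩ : ∃ z, z = cf^[2 * k] y := ⟨_, rfl⟩
      rw [← hz] at ih ⊢
      have hp : (63 / 80 : ℝ) ^ k ≤ 1 := pow_le_one₀ (by norm_num) (by norm_num)
      have hp0 : (0 : ℝ) < (63 / 80 : ℝ) ^ k := by positivity
      have h3 : 49 / 50 ≤ z := by nlinarith [ih.1]
      have h4 := convone_step_one (d := 1 - z) (by linarith [ih.2]) (by linarith)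
      rw [show 1 - (1 - z) = z by ring] at h4
      have h5 := convone_step_two (d := 2 - cf z) (by linarith [h4.2]) (by linarith [h4.1])
      rw [show 2 - (2 - cf z) = cf z by ring] at h5
      refine ⟨?_, h5.2⟩
      have h6 : (63 / 80 : ℝ) ^ (k + 1) * (1 - y) = 63 / 80 * ((63 / 80 : ℝ) ^ k * (1 - y)) := by ring
      rw [h6]
      linarith [h5.1, h4.1, ih.1]
  refine ⟨0, ?_⟩
  simp only [Nat.add_zero]
  have h7 : Tendsto (fun k : ℕ => 1 - (63 / 80 : ℝ) ^ k * (1 - y)) atTop (𝓝 1) := by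
    have := ((tendsto_pow_atTop_nhds_zero_of_lt_one (by norm_num : (0 : ℝ) ≤ 63 / 80)
      (by norm_num)).mul_const (1 - y)).const_sub 1
    simpa using this
  exact tendsto_of_tendsto_of_tendsto_of_le_of_le h7 tendsto_const_nhds
    (fun k => (key k).1) (fun k => (key k).2)

end Pool.Agent.Lib.MP_a247fa_nt.Ver
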